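import Pool.Agent.H960.IS.Stm

/-!
# The magnetisation as a correlation with the ghost vertex (project IS of helper960)
-/

set_option autoImplicit false

open MeasureTheory Filter Topology Finset H960FV H960IS

namespace Pool.Agent.H229.IS

lemma sp_not (b : Bool) : sp (!b) = - sp b := by
  cases b <;> simp [sp]

/-- extension of a configuration to the ghost vertex -/
def ext1 {V : Type} (s : Bool) (τ : V → Bool) : Option V → Bool
  | none => s
  | some x => τ x

lemma ext1_not {V : Type} (τ : V → Bool) (v : Option V) :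
    ext1 false (fun x => !τ x) v = !(ext1 true τ v) := by
  cases v <;> rfl

section gen

variable {V E : Type} [Fintype V] [DecidableEq V] [Fintype E] [DecidableEq E]

/-- one term of the spin sum -/
noncomputable def FF (p q : E → Option V) (K : E → ℝ) (A : Finset (Option V))
    (σ : Option V → Bool) : ℝ :=
  (∏ v ∈ A, sp (σ v)) * Real.exp (∑ e, K e * (sp (σ (p e)) * sp (σ (q e))))

lemma FF_not (p q : E → Option V) (K : E → ℝ) (A : Finset (Option V)) (hA : Even A.card)
    (σ : Option V → Bool) : FF p q K A (fun v => !σ v) = FF p q K A σ := by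
  unfold FF
  simp only [sp_not, neg_mul_neg]
  rw [Finset.prod_neg, hA.neg_one_pow, one_mul]

lemma Zs_eq (p q : E → Option V) (K : E → ℝ) (A : Finset (Option V)) (hA : Even A.card) :
    Zs p q K A = 2 * ∑ τ : V → Bool, FF p q K A (ext1 true τ) := by
  have h1 : Zs p q K A = ∑ σ : Option V → Bool, FF p q K A σ := rfl
  have h2 : ∑ σ : Option V → Bool, FF p q K A σ =
      ∑ x : Bool × (V → Bool), FF p q K A (ext1 x.1 x.2) := by
    refine Fintype.sum_equiv
      (⟨fun σ => (σ none, fun x => σ (some x)), fun x => ext1 x.1 x.2, ?_, ?_⟩ :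
        (Option V → Bool) ≃ Bool × (V → Bool)) _ _ ?_
    · intro σ
      funext v
      cases v <;> rfl
    · rintro ⟨s, τ⟩
      rfl
    · intro σ
      congr 1
      funext v
      cases v <;> rfl
  have h3 : ∑ τ : V → Bool, FF p q K A (ext1 false τ) =
      ∑ τ : V → Bool, FF p q K A (ext1 true τ) := by
    refine Fintype.sum_equiv
      (⟨fun τ => fun x => !τ x, fun τ => fun x => !τ x, ?_, ?_⟩ : (V → Bool) ≃ (V → Bool)) _ _ ?_
    · intro τ
      funext x
      simp
    · intro τ
      funext x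
      simp
    · intro τ
      rw [← FF_not p q K A hA (ext1 true _)]
      congr 1
      funext v
      cases v <;> simp [ext1]
  rw [h1, h2, Fintype.sum_prod_type, Fintype.sum_bool, h3]
  ring

end gen

variable {d : ℕ}

lemma ext_p (Λ : Finset (Z d)) (τ : ↥Λ → Bool) (e : ↥(Ed Λ)) :
    ext1 true τ (pL Λ e) = gl Λ τ (fun _ => true) e.1.1 := by
  unfold pL gl
  by_cases h : e.1.1 ∈ Λ
  · rw [dif_pos h, dif_pos h]; rfl
  · rw [dif_neg h, dif_neg h]; rfl

lemma ext_q (Λ : Finset (Z d)) (τ : ↥Λ → Bool) (e : ↥(Ed Λ)) :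
    ext1 true τ (qL Λ e) = gl Λ τ (fun _ => true) (e.1.1 + un e.1.2) := by
  unfold qL gl
  by_cases h : e.1.1 + un e.1.2 ∈ Λ
  · rw [dif_pos h, dif_pos h]; rfl
  · rw [dif_neg h, dif_neg h]; rfl

lemma ext_v (Λ : Finset (Z d)) (τ : ↥Λ → Bool) (y : Z d) :
    ext1 true τ (vL Λ y) = gl Λ τ (fun _ => true) y := by
  unfold vL gl
  by_cases h : y ∈ Λ
  · rw [dif_pos h, dif_pos h]; rfl
  · rw [dif_neg h, dif_neg h]; rfl

lemma expo (β : ℝ) (Λ : Finset (Z d)) (τ : ↥Λ → Bool) :
    ∑ e : ↥(Ed Λ), β * (sp (ext1 true τ (pL Λ e)) * sp (ext1 true τ (qL Λ e))) =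
      β * En Λ (gl Λ τ (fun _ => true)) := by
  unfold En
  rw [Finset.mul_sum, ← Finset.sum_coe_sort (Ed Λ)]
  apply Finset.sum_congr rfl
  intro e _
  rw [ext_p, ext_q]

theorem link1 : S_link1 := by
  intro d β Λ y
  have hA : Even (symmDiff {vL Λ y} {none} : Finset (Option ↥Λ)).card ∧
      ∀ τ : ↥Λ → Bool, ∏ v ∈ (symmDiff {vL Λ y} {none} : Finset (Option ↥Λ)), sp (ext1 true τ v) =
        sp (gl Λ τ (fun _ => true) y) := by
    by_cases h : y ∈ Λ
    · have e : vL Λ y = some ⟨y, h⟩ := by unfold vL; rw [dif_pos h]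
      have e2 : (symmDiff {vL Λ y} {none} : Finset (Option ↥Λ)) = {some ⟨y, h⟩, none} := by
        rw [e]
        ext v
        simp only [Finset.mem_symmDiff, Finset.mem_singleton, Finset.mem_insert]
        constructor
        · rintro (⟨h1, _⟩ | ⟨h1, _⟩)
          · exact Or.inl h1
          · exact Or.inr h1
        · rintro (h1 | h1)
          · left
            exact ⟨h1, by rw [h1]; simp⟩
          · right
            exact ⟨h1, by rw [h1]; simp⟩
      rw [e2]
      refine ⟨?_, fun τ => ?_⟩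
      · rw [Finset.card_pair (by simp)]
        exact even_two
      · rw [Finset.prod_pair (by simp), ← ext_v Λ τ y, e]
        simp [ext1, sp]
    · have e : vL Λ y = none := by unfold vL; rw [dif_neg h]
      rw [e, symmDiff_self]
      refine ⟨by simp, fun τ => ?_⟩
      rw [← ext_v Λ τ y, e]
      simp [ext1, sp]
  unfold cor
  rw [Zs_eq _ _ _ _ hA.1, Zs_eq _ _ _ _ (by simp), mul_div_mul_left _ _ (two_ne_zero)]
  unfold mag Kop Zn FF
  congr 1
  · apply Finset.sum_congr rfl
    intro τ _
    rw [hA.2, expo, mul_comm]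
  · apply Finset.sum_congr rfl
    intro τ _
    rw [Finset.prod_empty, expo, one_mul]

end Pool.Agent.H229.IS
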